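import Mathlib
import Pool.Agent.Y298.GA.RatStm

/-!
# Rational maps near `z ^ d + c₀`: the criterion of hyperbolicity
-/

set_option autoImplicit false

open Set Filter Topology
open scoped OnePoint

namespace Pool.Agent.Y340.GA

open Pool.Agent.H462R2.AP Pool.Agent.H762R2.Rt Pool.Agent.Helper114.Herman
  Pool.Agent.Helper114.Konig Pool.Agent.Y298.GA

/-- The criterion of hyperbolicity. -/
theorem rhyp (hbas : Pool.Agent.Y298.GA.S_RBAS) (hesc : Pool.Agent.Y298.GA.S_RESC) :
    Pool.Agent.Y298.GA.S_RHYP := by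
  intro d hd
  obtain ⟨K, δ₁, -, hδ₁, hδ₁', h1⟩ := hbas d hd
  obtain ⟨δ₂, hδ₂, -, h2⟩ := hesc d hd
  refine ⟨min δ₁ δ₂, lt_min hδ₁ hδ₂, (min_le_left _ _).trans hδ₁', ?_⟩
  intro c₀ r P Q hc₀ hr hrδ hN hB
  obtain ⟨hQ, -, -, hcop, hQ0, -, -⟩ := h1 c₀ r P Q hc₀ hr (hrδ.trans (min_le_left _ _)) hN
  obtain ⟨f, hf, -⟩ := exists_isRat hcop hQ0
  obtain ⟨hinf, hout⟩ := h2 c₀ r P Q f hc₀ hr (hrδ.trans (min_le_right _ _)) hN hf
  have hQne : ∀ z : ℂ, ‖z‖ ≤ 5 / 2 → Q.eval z ≠ 0 := by
    intro z hz h0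
    have h3 := hQ z (by rw [mem_ball_zero_iff]; linarith)
    rw [h0, norm_zero] at h3
    norm_num at h3
  refine ⟨hcop, f, hf.cont, hf.eval, ?_⟩
  intro c hnot
  induction c using OnePoint.rec with
  | infty => exact hinf
  | coe z =>
    by_cases hz : 5 / 2 < ‖z‖
    · exact hout z hz
    rw [not_lt] at hz
    by_cases hW : (wro P Q).eval z = 0
    · have hex : ∃ n : ℕ, 5 / 2 <
          ‖(fun y => P.eval y / Q.eval y)^[n] (P.eval z / Q.eval z)‖ := by
        by_contra hcon
        push Not at hcon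
        exact hB ⟨z, hz, hW, hcon⟩
      classical
      have hn := Nat.find_spec hex
      have hmin : ∀ m < Nat.find hex,
          ‖(fun y => P.eval y / Q.eval y)^[m] (P.eval z / Q.eval z)‖ ≤ 5 / 2 :=
        fun m hm => not_lt.1 (Nat.find_min hex hm)
      have hit : ∀ m, m ≤ Nat.find hex →
          f^[m] ((P.eval z / Q.eval z : ℂ) : OnePoint ℂ) =
            (((fun y => P.eval y / Q.eval y)^[m] (P.eval z / Q.eval z) : ℂ) : OnePoint ℂ) := by
        intro m
        induction m with
        | zero => intro _; rfl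
        | succ m ih =>
          intro hm
          rw [Function.iterate_succ_apply', ih (by omega),
            hf.eval _ (hQne _ (hmin m (by omega))), Function.iterate_succ_apply']
      apply sinks_of_image hf.cont
      rw [hf.eval z (hQne z hz)]
      apply sinks_of_iterate hf.cont (Nat.find hex)
      rw [hit _ le_rfl]
      exact hout _ hn
    · exfalso
      apply hnot
      have hQz := hQne z hz
      have hder := (P.hasStrictDerivAt z).fun_div (Q.hasStrictDerivAt z) hQz
      have hne : (P.derivative.eval z * Q.eval z - P.eval z * Q.derivative.eval z) /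
          (Q.eval z) ^ 2 ≠ 0 := by
        apply div_ne_zero _ (pow_ne_zero _ hQz)
        have e1 : P.derivative.eval z * Q.eval z - P.eval z * Q.derivative.eval z =
            (wro P Q).eval z := by
          rw [wro]
          simp only [Polynomial.eval_mul, Polynomial.eval_sub]
        rw [e1]
        exact hW
      obtain ⟨U, hU, hinj⟩ := injOn_of_deriv hder hne
      have hUQ : {x : ℂ | Q.eval x ≠ 0} ∈ 𝓝 z :=
        (isOpen_ne_fun Q.continuous continuous_const).mem_nhds hQz
      refine ⟨(fun x : ℂ => (x : OnePoint ℂ)) '' (U ∩ {x : ℂ | Q.eval x ≠ 0}), ?_, ?_⟩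
      · exact (OnePoint.isOpenEmbedding_coe (X := ℂ)).isOpenMap.image_mem_nhds
          (inter_mem hU hUQ)
      · rintro _ ⟨x, ⟨hx, hxQ⟩, rfl⟩ _ ⟨y, ⟨hy, hyQ⟩, rfl⟩ hxy
        simp only at hxy
        rw [hf.eval x hxQ, hf.eval y hyQ, OnePoint.coe_eq_coe] at hxy
        rw [hinj hx hy hxy]

end Pool.Agent.Y340.GA
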